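import Pool.Agent.H10.ABY.Stmts
import Pool.Agent.H10.FEX.Stmts
import Pool.Agent.H47.ALLH.Stmts

/-!
# LH: abc triples of large height

Definitions and the statements of the modules.  Proofs in words: `/team-store/LH_PLAN_helper94.md`.
Module `XXX` is a theorem `xxx_thm (h1 : S_AAA) ... : S_XXX` in `Pool/Agent/H<k>/LH/XXX.lean`
(import this file, namespace `Pool.LH`).
-/

set_option autoImplicit false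

namespace Pool.LH

open Finset Pool.Agent.H98.ABCR Pool.SHA

/-! ## Part A: the free multiplier -/

/-- FREE MULTIPLIER (pigeonhole on the multiples `j e`, `j < g`, boxes of side `g / G`; `z` is the
inverse modulo `g` of the difference `m` of two values of `j`, `σ p` is the difference of the two
residues) -/
def S_MULT : Prop := ∀ (g G : ℕ) (P : Finset ℕ) (e : ℕ → ℤ), g.Prime → 1 ≤ G → G ^ P.card < g →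
  ∃ (z : ℕ) (σ y : ℕ → ℤ), 1 ≤ z ∧ z < g ∧ ∀ p ∈ P, e p = z * σ p + g * y p ∧ G * |σ p| ≤ g

/-- `coord v s1 / coord v s2 = (N / D) ^ z * (A / B) ^ g` with bounds -/
structure Dec (g z : ℕ) (U V : ℝ) (s1 s2 : Fin 3) (v : ℕ × ℕ) (N D A B : ℕ) : Prop where
  N0 : 0 < N
  D0 : 0 < D
  A0 : 0 < A
  B0 : 0 < B
  eq : coord v s1 * (D ^ z * B ^ g) = coord v s2 * (N ^ z * A ^ g)
  Nle : (N : ℝ) ≤ Real.exp U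
  Dle : (D : ℝ) ≤ Real.exp U
  Ale : (A : ℝ) ≤ Real.exp V
  Ble : (B : ℝ) ≤ Real.exp V
  pf : ∀ p : ℕ, p.Prime → p ∣ N * D * A * B → p ∣ coord v s1 * coord v s2

/-- decomposition of a triple: `e p = v_p (coord v s1) - v_p (coord v s2)` for
`p ∣ coord v s1 * coord v s2`, `N / D = ∏ p ^ σ p`, `A / B = ∏ p ^ y p` (positive and negative
parts), `log N, log D ≤ ∑ |σ p| log p ≤ (g / G) log rad`, `|y p| ≤ |e p| / g + |σ p|` -/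
def S_DEC : Prop := ∀ (g G : ℕ) (h0 L : ℝ) (v : ℕ × ℕ) (s1 s2 : Fin 3), g.Prime → 1 ≤ G →
  s1 ≠ s2 → IsTri v → G ^ om (nn v) < g → (RR v : ℝ) ≤ Real.exp L → hh v ≤ 2 * h0 →
  ∃ z N D A B : ℕ, 1 ≤ z ∧ z < g ∧
    Dec g z (g * L / G) (4 * h0 / g + g * L / G) s1 s2 v N D A B

/-! ## Part B: many distinct products -/

/-- choice of the common part `Z` of the supports: maximise `#V_Z ∏_{p ∈ Z} a p` over the subsets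
`Z` of the union of the supports, `V_Z = {v : Z ⊆ U v}` -/
def S_SUP : Prop := ∀ (α : Type) [DecidableEq α] (V0 : Finset α) (U : α → Finset ℕ) (a : ℕ → ℝ),
  V0.Nonempty → (∀ p, 1 ≤ a p) → ∃ (Z : Finset ℕ) (V : Finset α), V ⊆ V0 ∧ V.Nonempty ∧
    (∀ v ∈ V, Z ⊆ U v) ∧ (V0.card : ℝ) ≤ V.card * ∏ p ∈ Z, a p ∧
    ∀ W : Finset ℕ, Disjoint W Z →
      ((V.filter (fun v => W ⊆ U v)).card : ℝ) * ∏ p ∈ W, a p ≤ V.card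

/-- `2 n`-tuples in which every prime of every support occurs in another support -/
def S_ENR : Prop := ∀ (α : Type) [DecidableEq α] (V : Finset α) (U : α → Finset ℕ) (a : ℕ → ℝ)
  (k n : ℕ) (A Y : ℝ), (∀ p, 1 ≤ a p) → 0 ≤ A → 1 ≤ Y → (∀ v ∈ V, (U v).card ≤ k) →
  (∀ v ∈ V, Y ≤ ∏ p ∈ U v, a p) →
  (∀ W : Finset ℕ, ((V.filter (fun v => W ⊆ U v)).card : ℝ) * ∏ p ∈ W, a p ≤ A * V.card) →
  (((Fintype.piFinset fun _ : Fin (2 * n) => V).filter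
    (fun w => ∀ j, ∀ p ∈ U (w j), ∃ j', j' ≠ j ∧ p ∈ U (w j'))).card : ℝ) * Y ^ n ≤
      (A * 2 ^ (2 * n * k) * V.card) ^ (2 * n)

/-- the quotient of two coordinates, multiplied over a tuple of triples -/
def Th (s1 s2 : Fin 3) {t : ℕ} (w : Fin t → ℕ × ℕ) : ℚ :=
  ∏ r, ((coord (w r) s1 : ℚ) / coord (w r) s2)

/-- a family of `X ^ ε` triples with few triples for each support has `X ^ (lam t)` distinct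
`t`-fold products -/
def S_DPR : Prop := ∀ ε : ℝ, 0 < ε → ∃ lam : ℝ, 0 < lam ∧ lam ≤ 1 ∧ ∀ t : ℕ, 1 ≤ t →
  ∃ X0 : ℝ, 3 ≤ X0 ∧ ∀ (X : ℝ) (s1 s2 : Fin 3) (V : Finset (ℕ × ℕ)), X0 ≤ X → s1 ≠ s2 →
  (∀ v ∈ V, IsTri v ∧ (RR v : ℝ) ≤ X) → X ^ ε ≤ (V.card : ℝ) →
  (∀ S : Finset ℕ, ((V.filter (fun v => (coord v s1 * coord v s2).primeFactors = S)).card : ℝ) ≤
    X ^ (ε / 8)) →
  ∃ W : Finset (Fin t → ℕ × ℕ), (∀ w ∈ W, ∀ r, w r ∈ V) ∧ X ^ (lam * t) ≤ (W.card : ℝ) ∧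
    ∀ w ∈ W, ∀ w' ∈ W, Th s1 s2 w = Th s1 s2 w' → w = w'

/-- few triples of height about `h0` with given primes of the coordinates `s1`, `s2` and given
primes `K` of weight `δ h0` of the third coordinate (from `S_GPD`: the mass is at least
`(2 + δ / 4) hh v`) -/
def S_FSP : Prop := ∀ δ : ℝ, 0 < δ → δ ≤ 1 → ∃ C h1 : ℝ, 1 ≤ C ∧ 1 ≤ h1 ∧
  ∀ (h0 : ℝ) (k : ℕ) (K S : Finset ℕ) (i s1 s2 : Fin 3) (F : Finset (ℕ × ℕ)), h1 ≤ h0 →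
  s1 ≠ s2 → s1 ≠ i → s2 ≠ i → (∀ q ∈ K, q.Prime) →
  (∀ v ∈ F, IsTri v ∧ h0 ≤ hh v ∧ hh v ≤ 2 * h0 ∧ om (nn v) ≤ k ∧
    (coord v s1 * coord v s2).primeFactors = S ∧
    (K ⊆ (coord v i).primeFactors ∧ δ * h0 ≤ kl K (coord v i) ∨
      Real.log (coord v i) ≤ (1 - δ) * hh v)) →
  (F.card : ℝ) ≤ C ^ (k + 1)

/-! ## Part C: approximations from two tuples -/

/-- the `t`-adic approximations -/
structure ApP (g z : ℕ) (T : Finset ℕ) (x m : ℕ → ℕ) (Nt Dt W1 W2 : ℕ) : Prop where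
  N0 : 0 < Nt
  D0 : 0 < Dt
  W10 : 0 < W1
  W20 : 0 < W2
  ne : Nt ≠ Dt ∨ W1 ≠ W2
  tN : ∀ t ∈ T, ¬ t ∣ Nt
  tD : ∀ t ∈ T, ¬ t ∣ Dt
  t1 : ∀ t ∈ T, ¬ t ∣ W1
  t2 : ∀ t ∈ T, ¬ t ∣ W2
  cN : ∀ t ∈ T, (t : ℤ) ^ m t ∣ (Nt : ℤ) - Dt
  cW : ∀ t ∈ T, (t : ℤ) ∣ (W1 : ℤ) - W2
  rel : ∀ t ∈ T, (t : ℤ) ^ x t ∣ (Nt : ℤ) ^ z * (W1 : ℤ) ^ g - (Dt : ℤ) ^ z * (W2 : ℤ) ^ g

/-- two tuples with the same residues: `Nt / Dt` is the quotient of the products of the `N / D`,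
`W1 / W2` the quotient of the products of the `A / B`; the residues of `∏ N (∏ D)⁻¹` modulo
`q ^ m q` and of `∏ A (∏ B)⁻¹` modulo `q` take at most `∏ q ^ (m q + 1)` values; the sign in
`coord v s1 ≡ ± coord v s2` modulo `coord v i` depends on `i` only -/
def S_TUP : Prop := ∀ (t g z : ℕ) (T : Finset ℕ) (x m : ℕ → ℕ) (i s1 s2 : Fin 3)
  (W : Finset (Fin t → ℕ × ℕ)) (N D A B : ℕ × ℕ → ℕ) (U V : ℝ), 0 < g → s1 ≠ s2 → s1 ≠ i →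
  s2 ≠ i → (∀ q ∈ T, q.Prime) →
  (∀ w ∈ W, ∀ r, IsTri (w r) ∧ (∀ q ∈ T, q ∣ coord (w r) i ∧ q ^ x q ∣ coord (w r) i) ∧
    Dec g z U V s1 s2 (w r) (N (w r)) (D (w r)) (A (w r)) (B (w r))) →
  (∀ w ∈ W, ∀ w' ∈ W, Th s1 s2 w = Th s1 s2 w' → w = w') →
  ∏ q ∈ T, q ^ (m q + 1) < W.card →
  ∃ Nt Dt W1 W2 : ℕ, ApP g z T x m Nt Dt W1 W2 ∧ (Nt : ℝ) ≤ Real.exp (2 * t * U) ∧
    (Dt : ℝ) ≤ Real.exp (2 * t * U) ∧ (W1 : ℝ) ≤ Real.exp (2 * t * V) ∧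
    (W2 : ℝ) ≤ Real.exp (2 * t * V)

/-- the weight of `T` is bounded by the heights (from `S_PADE` if `Nt ≠ Dt`, from `S_ZER` with the
dummy `Nt = 1 + ∏ q ^ m q`, `Dt = 1` if `Nt = Dt`) -/
def S_PZ : Prop := ∀ (g M n z : ℕ) (T : Finset ℕ) (x m : ℕ → ℕ) (Nt Dt W1 W2 : ℕ) (U V : ℝ),
  g.Prime → 0 < z → z < g → 1 ≤ M → M ≤ g → 2 ≤ n → (∀ q ∈ T, q.Prime) →
  ApP g z T x m Nt Dt W1 W2 → (∀ t ∈ T, t ≠ g ∧ 1 ≤ m t ∧ x t ≤ m t * (M * n)) → 0 ≤ U → 0 ≤ V →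
  (Nt : ℝ) ≤ Real.exp U → (Dt : ℝ) ≤ Real.exp U → (W1 : ℝ) ≤ Real.exp V → (W2 : ℝ) ≤ Real.exp V →
  ∑ t ∈ T, (x t : ℝ) * Real.log t ≤
    20 * ((M : ℝ) * n) * Real.log (6 * g) + 4 * n * U + M * V

/-- the archimedean approximations: `|log (Nt / Dt)| ≤ e ^ (-b)`,
`|z log (Nt / Dt) + g log (W1 / W2)| ≤ e ^ (-B)` -/
structure ApR (g z : ℕ) (b B : ℝ) (Nt Dt W1 W2 : ℕ) : Prop where
  N0 : 0 < Nt
  D0 : 0 < Dt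
  W10 : 0 < W1
  W20 : 0 < W2
  cN : |Real.log Nt - Real.log Dt| ≤ Real.exp (-b)
  rel : |z * (Real.log Nt - Real.log Dt) + g * (Real.log W1 - Real.log W2)| ≤ Real.exp (-B)

/-- two tuples with `log (N / D)` in the same box: `i` is the small coordinate, so
`|log coord v s1 - log coord v s2| ≤ 2 exp (- hh v / 2)` -/
def S_TUR : Prop := ∀ (t g z : ℕ) (i s1 s2 : Fin 3) (W : Finset (Fin t → ℕ × ℕ))
  (N D A B : ℕ × ℕ → ℕ) (U V b h0 : ℝ), 0 < g → 1 ≤ t → s1 ≠ s2 → s1 ≠ i → s2 ≠ i → 0 ≤ b →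
  2 ≤ h0 → 0 ≤ U →
  (∀ w ∈ W, ∀ r, IsTri (w r) ∧ h0 ≤ hh (w r) ∧ Real.log (coord (w r) i) ≤ hh (w r) / 2 ∧
    Dec g z U V s1 s2 (w r) (N (w r)) (D (w r)) (A (w r)) (B (w r))) →
  (∀ w ∈ W, ∀ w' ∈ W, Th s1 s2 w = Th s1 s2 w' → w = w') →
  (2 * t * U + 1) * Real.exp b + 1 < W.card →
  ∃ Nt Dt W1 W2 : ℕ, ApR g z b (h0 / 2 - Real.log (4 * t)) Nt Dt W1 W2 ∧
    (Nt ≠ Dt ∨ W1 ≠ W2) ∧ (Nt : ℝ) ≤ Real.exp (2 * t * U) ∧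
    (Dt : ℝ) ≤ Real.exp (2 * t * U) ∧ (W1 : ℝ) ≤ Real.exp (2 * t * V) ∧
    (W2 : ℝ) ≤ Real.exp (2 * t * V)

/-- the archimedean form of `S_PZ` (`H85STAR.siegel_step` and `H85STAR.zero` as in
`H85STAR.core`; the value at `s0 = τ ^ (1 / g)` of a polynomial with a zero of order `κ` at `1` is
at most `|s0 - 1| ^ κ ∑ |c e| (e.choose κ) max(1, s0) ^ e`) -/
def S_PZR : Prop := ∀ (g M n z : ℕ) (b B : ℝ) (Nt Dt W1 W2 : ℕ) (U V : ℝ),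
  g.Prime → 0 < z → z < g → 1 ≤ M → M ≤ g → 2 ≤ n → ApR g z b B Nt Dt W1 W2 →
  (Nt ≠ Dt ∨ W1 ≠ W2) → 1 ≤ b → 1 ≤ B → B ≤ b * (M * n) → 0 ≤ U → 0 ≤ V →
  (Nt : ℝ) ≤ Real.exp U → (Dt : ℝ) ≤ Real.exp U → (W1 : ℝ) ≤ Real.exp V → (W2 : ℝ) ≤ Real.exp V →
  B ≤ 100 * ((M : ℝ) * n) * Real.log (6 * g) + 4 * n * U + M * V + M

/-! ## Part D: one class -/

/-- parameters (real inequalities only): `t > 8 / lam`, `G` large, `M ~ c g / G`,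
`M n ~ 4 h0 / (lam t L)` -/
def S_NUL : Prop := ∀ δ lam : ℝ, 0 < δ → δ ≤ 1 → 0 < lam → lam ≤ 1 → ∃ (t G : ℕ) (C c X0 : ℝ),
  1 ≤ t ∧ 2 ≤ G ∧ 1 ≤ C ∧ 0 < c ∧ 3 ≤ X0 ∧
  ∀ (L h0 : ℝ) (g k : ℕ), Real.log X0 ≤ L → C ^ (k + 1) * L ≤ h0 → 1 ≤ k → G ^ k < g →
    (g : ℝ) ≤ 8 * (G : ℝ) ^ k → Real.log (6 * g) ≤ c * L →
    ∃ M n : ℕ, 1 ≤ M ∧ M ≤ g ∧ 2 ≤ n ∧
      2 * h0 / (M * n) + 2 * L < lam * t * L ∧
      100 * ((M : ℝ) * n) * Real.log (6 * g) + 4 * n * (2 * t * (g * L / G)) +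
        M * (2 * t * (4 * h0 / g + g * L / G)) + M < δ * h0 ∧
      Real.log (4 * t * (g * L / G) + 4) + h0 / (M * n) + 1 < lam * t * L ∧
      Real.log (4 * t) ≤ h0 / 4

/-- CLASS THEOREM: few triples of height about `h0 ≥ C ^ (k + 1) log X` with `k` prime factors and
with given exponents `x` (of weight `δ h0`) at given primes `K` of one coordinate -/
def S_CLP : Prop := ∀ δ ε : ℝ, 0 < δ → δ ≤ 1 → 0 < ε → ∃ C X0 : ℝ, 1 ≤ C ∧ 3 ≤ X0 ∧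
  ∀ (X h0 : ℝ) (k : ℕ) (K : Finset ℕ) (x : ℕ → ℕ) (i : Fin 3) (V : Finset (ℕ × ℕ)), X0 ≤ X →
  C ^ (k + 1) * Real.log X ≤ h0 → (∀ q ∈ K, q.Prime) → (∀ q ∈ K, 1 ≤ x q) →
  δ * h0 ≤ ∑ q ∈ K, (x q : ℝ) * Real.log q →
  (∀ v ∈ V, IsTri v ∧ (RR v : ℝ) ≤ X ∧ h0 ≤ hh v ∧ hh v ≤ 2 * h0 ∧ om (nn v) = k ∧
    ∀ q ∈ K, q ^ x q ∣ coord v i) →
  (V.card : ℝ) ≤ X ^ ε

/-- CLASS THEOREM, real place: few triples of height about `h0 ≥ C ^ (k + 1) log X` with `k` prime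
factors and one coordinate at most `exp (hh v / 2)` -/
def S_CLR : Prop := ∀ ε : ℝ, 0 < ε → ∃ C X0 : ℝ, 1 ≤ C ∧ 3 ≤ X0 ∧
  ∀ (X h0 : ℝ) (k : ℕ) (i : Fin 3) (V : Finset (ℕ × ℕ)), X0 ≤ X →
  C ^ (k + 1) * Real.log X ≤ h0 →
  (∀ v ∈ V, IsTri v ∧ (RR v : ℝ) ≤ X ∧ h0 ≤ hh v ∧ hh v ≤ 2 * h0 ∧ om (nn v) = k ∧
    Real.log (coord v i) ≤ hh v / 2) →
  (V.card : ℝ) ≤ X ^ ε

/-! ## Part E: the count -/

/-- greatest prime factor (`1` for `n = 1`) -/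
def gp (n : ℕ) : ℕ := n.primeFactors.sup id ⊔ 1

/-- greedy choice of primes of one coordinate (from `S_KNA`) -/
def S_GRE : Prop := ∀ (n : ℕ) (θ : ℝ), 0 < n → 0 ≤ θ → θ ≤ 1 → ∃ T ⊆ n.primeFactors,
  θ * Real.log n ≤ kl T n ∧ ((∏ q ∈ T, q : ℕ) : ℝ) ≤ (rad n : ℝ) ^ θ * gp n

/-- one dyadic range of heights, given number of prime factors -/
def S_LDY : Prop := ∀ ε : ℝ, 0 < ε → ∃ C : ℝ, 1 ≤ C ∧ ∀ (X Y h0 : ℝ) (k : ℕ) (F : Finset (ℕ × ℕ)),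
  1 ≤ X → 1 ≤ Y → C ^ (k + 1) * Real.log (2 * X) ≤ h0 →
  (∀ v ∈ F, IsTri v ∧ (RR v : ℝ) ≤ X ∧ (∃ i, (gp (coord v i) : ℝ) ≤ Y) ∧ om (nn v) = k ∧
    h0 ≤ hh v ∧ hh v ≤ 2 * h0) →
  (F.card : ℝ) ≤ C * Y * X ^ ε

/-- all large heights, threshold in terms of `X` (with `S_EHB`) -/
def S_LAX : Prop := ∀ ε : ℝ, 0 < ε → ∃ C : ℝ, 1 ≤ C ∧ ∀ (X Y : ℝ) (F : Finset (ℕ × ℕ)),
  1 ≤ X → 1 ≤ Y →
  (∀ v ∈ F, IsTri v ∧ (RR v : ℝ) ≤ X ∧ (∃ i, (gp (coord v i) : ℝ) ≤ Y) ∧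
    C ^ (om (nn v) + 1) * Real.log (2 * X) ≤ hh v) →
  (F.card : ℝ) ≤ C * Y * X ^ ε

/-- MAIN THEOREM (dyadic in the radical) -/
def S_LAR : Prop := ∀ ε : ℝ, 0 < ε → ∃ C : ℝ, 1 ≤ C ∧ ∀ (X Y : ℝ) (F : Finset (ℕ × ℕ)),
  1 ≤ X → 1 ≤ Y →
  (∀ v ∈ F, IsTri v ∧ (RR v : ℝ) ≤ X ∧ (∃ i, (gp (coord v i) : ℝ) ≤ Y) ∧
    C ^ (om (nn v) + 1) * Real.log (2 * RR v) ≤ hh v) →
  (F.card : ℝ) ≤ C * Y * X ^ ε

/-- COROLLARY: almost all triples satisfy `log c < rad ^ ε` -/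
def S_LCO : Prop := ∀ ε : ℝ, 0 < ε → ∃ C : ℝ, 1 ≤ C ∧ ∀ (X Y : ℝ) (F : Finset (ℕ × ℕ)),
  1 ≤ X → 1 ≤ Y →
  (∀ v ∈ F, IsTri v ∧ (RR v : ℝ) ≤ X ∧ (∃ i, (gp (coord v i) : ℝ) ≤ Y) ∧
    (RR v : ℝ) ^ ε ≤ hh v) →
  (F.card : ℝ) ≤ C * Y * X ^ ε

/-- the smallest of the three greatest prime factors is at most the cube root of the radical -/
def S_MIN : Prop := ∀ v : ℕ × ℕ, IsTri v → ∃ i, (gp (coord v i) : ℝ) ^ 3 ≤ RR v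

end Pool.LH
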