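import Pool.Agent.H94.LH.Stmts

/-!
# LH+, second form of the large height theorem (helper72)

Outside at most `C Y X ^ ε` triples a triple of large height has `min(a, b) > c ^ (1 - ε)` and the
`Y`-smooth part of `a b c` is less than `c ^ ε`.  Rows as in `Stmts.lean`; `TUR2`, `CLR2`, `GRY`,
`LDY2`, `LAX2`, `LAR2`, `LCO2` replace `TUR`, `CLR`, `GRE`, `LDY`, `LAX`, `LAR`, `LCO`.
-/

set_option autoImplicit false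

namespace Pool.LH

open Finset Pool.Agent.H98.ABCR Pool.SHA

/-- two tuples with `log (N / D)` in the same box: `coord v i ≤ (a + b) exp (-B0)`, so
`|log coord v s1 - log coord v s2| ≤ 2 exp (-B0)` -/
def S_TUR2 : Prop := ∀ (t g z : ℕ) (i s1 s2 : Fin 3) (W : Finset (Fin t → ℕ × ℕ))
  (N D A B : ℕ × ℕ → ℕ) (U V b B0 : ℝ), 0 < g → 1 ≤ t → s1 ≠ s2 → s1 ≠ i → s2 ≠ i → 0 ≤ b →
  1 ≤ B0 → 0 ≤ U →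
  (∀ w ∈ W, ∀ r, IsTri (w r) ∧ Real.log (coord (w r) i) + B0 ≤ hh (w r) ∧
    Dec g z U V s1 s2 (w r) (N (w r)) (D (w r)) (A (w r)) (B (w r))) →
  (∀ w ∈ W, ∀ w' ∈ W, Th s1 s2 w = Th s1 s2 w' → w = w') →
  (2 * t * U + 1) * Real.exp b + 1 < W.card →
  ∃ Nt Dt W1 W2 : ℕ, ApR g z b (B0 - Real.log (4 * t)) Nt Dt W1 W2 ∧
    (Nt ≠ Dt ∨ W1 ≠ W2) ∧ (Nt : ℝ) ≤ Real.exp (2 * t * U) ∧
    (Dt : ℝ) ≤ Real.exp (2 * t * U) ∧ (W1 : ℝ) ≤ Real.exp (2 * t * V) ∧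
    (W2 : ℝ) ≤ Real.exp (2 * t * V)

/-- CLASS THEOREM, real place: few triples of height about `h0 ≥ C ^ (k + 1) log X` with `k` prime
factors and one coordinate at most `exp ((1 - δ) hh v)` -/
def S_CLR2 : Prop := ∀ δ ε : ℝ, 0 < δ → δ ≤ 1 → 0 < ε → ∃ C X0 : ℝ, 1 ≤ C ∧ 3 ≤ X0 ∧
  ∀ (X h0 : ℝ) (k : ℕ) (i : Fin 3) (V : Finset (ℕ × ℕ)), X0 ≤ X →
  C ^ (k + 1) * Real.log X ≤ h0 →
  (∀ v ∈ V, IsTri v ∧ (RR v : ℝ) ≤ X ∧ h0 ≤ hh v ∧ hh v ≤ 2 * h0 ∧ om (nn v) = k ∧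
    Real.log (coord v i) ≤ (1 - δ) * hh v) →
  (V.card : ℝ) ≤ X ^ ε

/-- greedy choice among the primes `≤ Y` of one coordinate (from `S_KNA`) -/
def S_GRY : Prop := ∀ (n : ℕ) (θ Y : ℝ), 0 < n → 0 ≤ θ → θ ≤ 1 → 1 ≤ Y →
  ∃ T ⊆ n.primeFactors, (∀ q ∈ T, (q : ℝ) ≤ Y) ∧
    θ * kl (n.primeFactors.filter (fun q => (q : ℝ) ≤ Y)) n ≤ kl T n ∧
    ((∏ q ∈ T, q : ℕ) : ℝ) ≤ (rad n : ℝ) ^ θ * Y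

/-- the smaller of `a`, `b` is at most `c ^ (1 - ε)`, or the `Y`-smooth part of `a b c` is at least
`c ^ ε` -/
def Unb (ε Y : ℝ) (v : ℕ × ℕ) : Prop :=
  Real.log ((min v.1 v.2 : ℕ) : ℝ) ≤ (1 - ε) * hh v ∨
    ε * hh v ≤ kl ((nn v).primeFactors.filter (fun q => (q : ℝ) ≤ Y)) (nn v)

/-- one dyadic range of heights, given number of prime factors: first alternative `S_CLR2` (with
`i = 0` or `1`); second alternative: one coordinate has `Y`-smooth part at least `c ^ (ε / 3)`,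
`S_GRY`, `S_CEL`, `S_CLP` -/
def S_LDY2 : Prop := ∀ ε : ℝ, 0 < ε → ε ≤ 1 → ∃ C : ℝ, 1 ≤ C ∧
  ∀ (X Y h0 : ℝ) (k : ℕ) (F : Finset (ℕ × ℕ)), 1 ≤ X → 1 ≤ Y →
  C ^ (k + 1) * Real.log (2 * X) ≤ h0 →
  (∀ v ∈ F, IsTri v ∧ (RR v : ℝ) ≤ X ∧ Unb ε Y v ∧ om (nn v) = k ∧ h0 ≤ hh v ∧
    hh v ≤ 2 * h0) →
  (F.card : ℝ) ≤ C * Y * X ^ ε

/-- all large heights, threshold in terms of `X` (with `S_EHB`) -/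
def S_LAX2 : Prop := ∀ ε : ℝ, 0 < ε → ε ≤ 1 → ∃ C : ℝ, 1 ≤ C ∧
  ∀ (X Y : ℝ) (F : Finset (ℕ × ℕ)), 1 ≤ X → 1 ≤ Y →
  (∀ v ∈ F, IsTri v ∧ (RR v : ℝ) ≤ X ∧ Unb ε Y v ∧
    C ^ (om (nn v) + 1) * Real.log (2 * X) ≤ hh v) →
  (F.card : ℝ) ≤ C * Y * X ^ ε

/-- MAIN THEOREM (dyadic in the radical) -/
def S_LAR2 : Prop := ∀ ε : ℝ, 0 < ε → ε ≤ 1 → ∃ C : ℝ, 1 ≤ C ∧
  ∀ (X Y : ℝ) (F : Finset (ℕ × ℕ)), 1 ≤ X → 1 ≤ Y →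
  (∀ v ∈ F, IsTri v ∧ (RR v : ℝ) ≤ X ∧ Unb ε Y v ∧
    C ^ (om (nn v) + 1) * Real.log (2 * RR v) ≤ hh v) →
  (F.card : ℝ) ≤ C * Y * X ^ ε

/-- COROLLARY: all but `C X ^ (1 / 3 + ε)` triples satisfy `log c < C ^ (ω + 1) log (2 rad)`
(`S_MIN`: one coordinate is `X ^ (1 / 3)`-smooth, so `Unb` holds with `Y = X ^ (1 / 3)`) -/
def S_LC2 : Prop := ∀ ε : ℝ, 0 < ε → ∃ C : ℝ, 1 ≤ C ∧ ∀ (X : ℝ) (F : Finset (ℕ × ℕ)), 1 ≤ X →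
  (∀ v ∈ F, IsTri v ∧ (RR v : ℝ) ≤ X ∧ C ^ (om (nn v) + 1) * Real.log (2 * RR v) ≤ hh v) →
  (F.card : ℝ) ≤ C * X ^ (1 / 3 + ε)

/-- COROLLARY: almost all triples satisfy `log c < rad ^ ε` -/
def S_LCO2 : Prop := ∀ ε : ℝ, 0 < ε → ∃ C : ℝ, 1 ≤ C ∧ ∀ (X : ℝ) (F : Finset (ℕ × ℕ)), 1 ≤ X →
  (∀ v ∈ F, IsTri v ∧ (RR v : ℝ) ≤ X ∧ (RR v : ℝ) ^ ε ≤ hh v) →
  (F.card : ℝ) ≤ C * X ^ (1 / 3 + ε)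

end Pool.LH
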