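import Pool.Agent.H94.LH.Stmts
import Pool.Agent.H98.ABCR.MainB

/-! # LH, row DPR -/

set_option autoImplicit false

namespace Pool.LH

open Finset Pool.Agent.H98.ABCR Pool.SHA

/-- representatives of the values and Cauchy-Schwarz -/
lemma dpr_reps {β γ : Type} [DecidableEq β] [DecidableEq γ] (P : Finset β) (f : β → γ) :
    ∃ W ⊆ P, (∀ w ∈ W, ∀ w' ∈ W, f w = f w' → w = w') ∧
      (P.card : ℝ) ^ 2 ≤ W.card * (((P ×ˢ P).filter (fun x => f x.1 = f x.2)).card : ℝ) := by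
  classical
  rcases P.eq_empty_or_nonempty with rfl | ⟨b0, _⟩
  · exact ⟨∅, Finset.Subset.refl _, by simp, by simp⟩
  have hne : Nonempty β := ⟨b0⟩
  have hch : ∀ y ∈ P.image f, ∃ w ∈ P, f w = y := fun y hy => Finset.mem_image.1 hy
  choose! g hg1 hg2 using hch
  refine ⟨(P.image f).image g, ?_, ?_, ?_⟩
  · intro w hw
    obtain ⟨y, hy, rfl⟩ := Finset.mem_image.1 hw
    exact hg1 y hy
  · intro w hw w' hw' h
    obtain ⟨y, hy, rfl⟩ := Finset.mem_image.1 hw
    obtain ⟨y', hy', rfl⟩ := Finset.mem_image.1 hw'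
    rw [hg2 y hy, hg2 y' hy'] at h
    rw [h]
  · have hinj : Set.InjOn g (P.image f : Finset γ) := by
      intro y hy y' hy' h
      have h1 := hg2 y hy
      have h2 := hg2 y' hy'
      rw [← h1, ← h2, h]
    rw [Finset.card_image_of_injOn hinj]
    have h1 : (P.card : ℝ) = ∑ y ∈ P.image f, ((P.filter (fun w => f w = y)).card : ℝ) := by
      have := Finset.card_eq_sum_card_image f P
      rw [this]
      push_cast
      rfl
    have h2 : (((P ×ˢ P).filter (fun x => f x.1 = f x.2)).card : ℝ) =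
        ∑ y ∈ P.image f, ((P.filter (fun w => f w = y)).card : ℝ) ^ 2 := by
      have h3 := Finset.card_eq_sum_card_fiberwise (s := (P ×ˢ P).filter (fun x => f x.1 = f x.2))
        (t := P.image f) (f := fun x => f x.1) (by
          intro x hx
          have hx' := Finset.mem_coe.1 hx
          rw [Finset.mem_filter, Finset.mem_product] at hx'
          exact Finset.mem_coe.2 (Finset.mem_image_of_mem f hx'.1.1))
      rw [h3]
      push_cast
      apply Finset.sum_congr rfl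
      intro y _
      have h4 : ((P ×ˢ P).filter (fun x => f x.1 = f x.2)).filter (fun x => f x.1 = y) =
          (P.filter (fun w => f w = y)) ×ˢ (P.filter (fun w => f w = y)) := by
        ext x
        simp only [Finset.mem_filter, Finset.mem_product]
        constructor
        · rintro ⟨⟨⟨ha, hb⟩, hc⟩, hd⟩
          exact ⟨⟨ha, hd⟩, hb, hc ▸ hd⟩
        · rintro ⟨⟨ha, hb⟩, hc, hd⟩
          exact ⟨⟨⟨ha, hc⟩, hb.trans hd.symm⟩, hb⟩
      rw [h4, Finset.card_product]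
      push_cast
      ring
    rw [h1, h2]
    exact sq_sum_le_card_mul_sum_sq

lemma dpr_coord_pos {v : ℕ × ℕ} (h : IsTri v) (s : Fin 3) : 0 < coord v s := by
  obtain ⟨h1, h2, _⟩ := h
  fin_cases s
  · exact h1
  · exact h2
  · exact Nat.add_pos_left h1 _

lemma dpr_coprime {v : ℕ × ℕ} (h : IsTri v) {s1 s2 : Fin 3} (hs : s1 ≠ s2) :
    (coord v s1).Coprime (coord v s2) := by
  obtain ⟨h1, h2, h3⟩ := h
  have h4 : v.1.Coprime (v.1 + v.2) := by simpa using h3
  have h5 : v.2.Coprime (v.1 + v.2) := by simpa using h3.symm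
  fin_cases s1 <;> fin_cases s2 <;> first
    | exact absurd rfl hs
    | exact h3
    | exact h3.symm
    | exact h4
    | exact h4.symm
    | exact h5
    | exact h5.symm

lemma dpr_dvd_nn (v : ℕ × ℕ) {s1 s2 : Fin 3} (hs : s1 ≠ s2) : coord v s1 * coord v s2 ∣ nn v := by
  have e : nn v = v.1 * v.2 * (v.1 + v.2) := rfl
  fin_cases s1 <;> fin_cases s2 <;> first
    | exact absurd rfl hs
    | exact ⟨v.1 + v.2, by rw [e]; rfl⟩
    | exact ⟨v.1 + v.2, by rw [e]; show _ = v.2 * v.1 * _; ring⟩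
    | exact ⟨v.2, by rw [e]; show _ = v.1 * (v.1 + v.2) * _; ring⟩
    | exact ⟨v.2, by rw [e]; show _ = (v.1 + v.2) * v.1 * _; ring⟩
    | exact ⟨v.1, by rw [e]; show _ = v.2 * (v.1 + v.2) * _; ring⟩
    | exact ⟨v.1, by rw [e]; show _ = (v.1 + v.2) * v.2 * _; ring⟩

lemma dpr_nn_ne {v : ℕ × ℕ} (h : IsTri v) : nn v ≠ 0 := by
  obtain ⟨h1, h2, _⟩ := h
  have : 0 < v.1 * v.2 * (v.1 + v.2) := by positivity
  exact this.ne'

/-- the valuation of the quotient of two coordinates -/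
noncomputable def dval (s1 s2 : Fin 3) (p : ℕ) (v : ℕ × ℕ) : ℤ :=
  padicValRat p ((coord v s1 : ℚ) / coord v s2)

lemma dval_eq {v : ℕ × ℕ} (h : IsTri v) (s1 s2 : Fin 3) (p : ℕ) [hp : Fact p.Prime] :
    dval s1 s2 p v = (padicValNat p (coord v s1) : ℤ) - padicValNat p (coord v s2) := by
  have h1 : (coord v s1 : ℚ) ≠ 0 := by exact_mod_cast (dpr_coord_pos h s1).ne'
  have h2 : (coord v s2 : ℚ) ≠ 0 := by exact_mod_cast (dpr_coord_pos h s2).ne'
  rw [dval, padicValRat.div h1 h2, padicValRat.of_nat, padicValRat.of_nat]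

lemma dval_zero {v : ℕ × ℕ} (h : IsTri v) {s1 s2 : Fin 3} (p : ℕ) [hp : Fact p.Prime]
    (hn : p ∉ (coord v s1 * coord v s2).primeFactors) : dval s1 s2 p v = 0 := by
  have h1 := (dpr_coord_pos h s1).ne'
  have h2 := (dpr_coord_pos h s2).ne'
  have hn' : ¬ p ∣ coord v s1 * coord v s2 := fun hd =>
    hn (Nat.mem_primeFactors.2 ⟨hp.out, hd, Nat.mul_ne_zero h1 h2⟩)
  rw [dval_eq h, padicValNat.eq_zero_of_not_dvd (fun hd => hn' (Dvd.dvd.mul_right hd _)),
    padicValNat.eq_zero_of_not_dvd (fun hd => hn' (Dvd.dvd.mul_left hd _))]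
  rfl

lemma dval_ne {v : ℕ × ℕ} (h : IsTri v) {s1 s2 : Fin 3} (hs : s1 ≠ s2) (p : ℕ)
    [hp : Fact p.Prime] (hn : p ∈ (coord v s1 * coord v s2).primeFactors) :
    dval s1 s2 p v ≠ 0 := by
  have h1 := (dpr_coord_pos h s1).ne'
  have h2 := (dpr_coord_pos h s2).ne'
  have hc := dpr_coprime h hs
  have hd := (Nat.mem_primeFactors.1 hn).2.1
  rw [dval_eq h]
  rcases (Nat.Prime.dvd_mul hp.out).1 hd with ha | ha
  · have hb : ¬ p ∣ coord v s2 := fun hb =>
      hp.out.one_lt.ne' (Nat.dvd_one.1 (hc ▸ Nat.dvd_gcd ha hb))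
    rw [padicValNat.eq_zero_of_not_dvd hb]
    have := one_le_padicValNat_of_dvd h1 ha
    omega
  · have hb : ¬ p ∣ coord v s1 := fun hb =>
      hp.out.one_lt.ne' (Nat.dvd_one.1 (hc ▸ Nat.dvd_gcd hb ha))
    rw [padicValNat.eq_zero_of_not_dvd hb]
    have := one_le_padicValNat_of_dvd h2 ha
    omega

lemma Th_val {t : ℕ} (w : Fin t → ℕ × ℕ) (hw : ∀ r, IsTri (w r)) (s1 s2 : Fin 3) (p : ℕ)
    [hp : Fact p.Prime] : padicValRat p (Th s1 s2 w) = ∑ r, dval s1 s2 p (w r) := by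
  rw [Th]
  have : ∀ S : Finset (Fin t), padicValRat p (∏ r ∈ S, ((coord (w r) s1 : ℚ) / coord (w r) s2)) =
      ∑ r ∈ S, dval s1 s2 p (w r) := by
    intro S
    induction S using Finset.induction_on with
    | empty => simp
    | insert r S hr ih =>
      have h1 : ∀ r, ((coord (w r) s1 : ℚ) / coord (w r) s2) ≠ 0 := by
        intro r
        exact div_ne_zero (by exact_mod_cast (dpr_coord_pos (hw r) s1).ne')
          (by exact_mod_cast (dpr_coord_pos (hw r) s2).ne')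
      rw [Finset.prod_insert hr, Finset.sum_insert hr,
        padicValRat.mul (h1 r) (Finset.prod_ne_zero_iff.2 fun r _ => h1 r), ih]
      rfl
  exact this univ

/-- if two products agree, every prime outside `Z` of every support is in another support -/
lemma dpr_twice {t : ℕ} {s1 s2 : Fin 3} (hs : s1 ≠ s2) (Z : Finset ℕ) (w w' : Fin t → ℕ × ℕ)
    (hw : ∀ r, IsTri (w r)) (hw' : ∀ r, IsTri (w' r)) (h : Th s1 s2 w = Th s1 s2 w')
    (x : Fin t ⊕ Fin t → ℕ × ℕ) (hx : x = Sum.elim w w') (j : Fin t ⊕ Fin t) (p : ℕ)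
    (hp : p ∈ (coord (x j) s1 * coord (x j) s2).primeFactors \ Z) :
    ∃ j', j' ≠ j ∧ p ∈ (coord (x j') s1 * coord (x j') s2).primeFactors \ Z := by
  rw [Finset.mem_sdiff] at hp
  have hpr : p.Prime := Nat.prime_of_mem_primeFactors hp.1
  have : Fact p.Prime := ⟨hpr⟩
  by_contra hcon
  push Not at hcon
  have hz : ∀ j', j' ≠ j → p ∉ (coord (x j') s1 * coord (x j') s2).primeFactors := by
    intro j' hj' hmem
    exact hcon j' hj' (Finset.mem_sdiff.2 ⟨hmem, hp.2⟩)
  have hv := congrArg (padicValRat p) h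
  rw [Th_val w hw, Th_val w' hw'] at hv
  subst hx
  rcases j with r | r
  · have e1 : ∑ r', dval s1 s2 p (w r') = dval s1 s2 p (w r) := by
      rw [Finset.sum_eq_single r]
      · intro r' _ hr'
        exact dval_zero (hw r') p (hz (Sum.inl r') (fun hh => hr' (Sum.inl.inj hh)))
      · intro hh
        exact absurd (Finset.mem_univ r) hh
    have e2 : ∑ r', dval s1 s2 p (w' r') = 0 := by
      apply Finset.sum_eq_zero
      intro r' _
      exact dval_zero (hw' r') p (hz (Sum.inr r') (fun hh => by cases hh))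
    rw [e1, e2] at hv
    exact dval_ne (hw r) hs p hp.1 hv
  · have e1 : ∑ r', dval s1 s2 p (w' r') = dval s1 s2 p (w' r) := by
      rw [Finset.sum_eq_single r]
      · intro r' _ hr'
        exact dval_zero (hw' r') p (hz (Sum.inr r') (fun hh => hr' (Sum.inr.inj hh)))
      · intro hh
        exact absurd (Finset.mem_univ r) hh
    have e2 : ∑ r', dval s1 s2 p (w r') = 0 := by
      apply Finset.sum_eq_zero
      intro r' _
      exact dval_zero (hw r') p (hz (Sum.inl r') (fun hh => by cases hh))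
    rw [e1, e2] at hv
    exact dval_ne (hw' r) hs p hp.1 hv.symm

/-- the energy is at most the number of `2 t`-tuples with repeated primes -/
lemma dpr_energy {t : ℕ} {s1 s2 : Fin 3} (hs : s1 ≠ s2) (Z : Finset ℕ) (V : Finset (ℕ × ℕ))
    (hV : ∀ v ∈ V, IsTri v) :
    ((((Fintype.piFinset fun _ : Fin t => V) ×ˢ (Fintype.piFinset fun _ : Fin t => V)).filter
      (fun x => Th s1 s2 x.1 = Th s1 s2 x.2)).card : ℝ) ≤
    (((Fintype.piFinset fun _ : Fin (2 * t) => V).filter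
      (fun w => ∀ j, ∀ p ∈ (coord (w j) s1 * coord (w j) s2).primeFactors \ Z,
        ∃ j', j' ≠ j ∧ p ∈ (coord (w j') s1 * coord (w j') s2).primeFactors \ Z)).card : ℝ) := by
  let e : Fin (2 * t) ≃ Fin t ⊕ Fin t :=
    (finCongr (two_mul t)).trans finSumFinEquiv.symm
  have : (((Fintype.piFinset fun _ : Fin t => V) ×ˢ (Fintype.piFinset fun _ : Fin t => V)).filter
      (fun x => Th s1 s2 x.1 = Th s1 s2 x.2)).card ≤
    ((Fintype.piFinset fun _ : Fin (2 * t) => V).filter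
      (fun w => ∀ j, ∀ p ∈ (coord (w j) s1 * coord (w j) s2).primeFactors \ Z,
        ∃ j', j' ≠ j ∧ p ∈ (coord (w j') s1 * coord (w j') s2).primeFactors \ Z)).card := by
    apply Finset.card_le_card_of_injOn (fun x => fun j => Sum.elim x.1 x.2 (e j))
    · intro x hx
      have hx' := Finset.mem_coe.1 hx
      rw [Finset.mem_filter, Finset.mem_product, Fintype.mem_piFinset, Fintype.mem_piFinset] at hx'
      obtain ⟨⟨ha, hb⟩, hc⟩ := hx'
      apply Finset.mem_coe.2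
      rw [Finset.mem_filter, Fintype.mem_piFinset]
      constructor
      · intro j
        show Sum.elim x.1 x.2 (e j) ∈ V
        rcases e j with r | r
        · exact ha r
        · exact hb r
      · intro j p hp
        obtain ⟨j', hj', hp'⟩ := dpr_twice hs Z x.1 x.2 (fun r => hV _ (ha r))
          (fun r => hV _ (hb r)) hc (Sum.elim x.1 x.2) rfl (e j) p hp
        refine ⟨e.symm j', ?_, ?_⟩
        · intro hh
          apply hj'
          rw [← hh, Equiv.apply_symm_apply]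
        · show p ∈ (coord (Sum.elim x.1 x.2 (e (e.symm j'))) s1 *
            coord (Sum.elim x.1 x.2 (e (e.symm j'))) s2).primeFactors \ Z
          rw [Equiv.apply_symm_apply]
          exact hp'
    · intro x _ y _ hxy
      have h1 : ∀ s, Sum.elim x.1 x.2 s = Sum.elim y.1 y.2 s := by
        intro s
        have := congrFun hxy (e.symm s)
        simpa only [Equiv.apply_symm_apply] using this
      apply Prod.ext
      · funext r
        exact h1 (Sum.inl r)
      · funext r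
        exact h1 (Sum.inr r)
  exact_mod_cast this


/-- the support of a triple at two coordinates -/
def dsup (s1 s2 : Fin 3) (v : ℕ × ℕ) : Finset ℕ := (coord v s1 * coord v s2).primeFactors

lemma dsup_prime {s1 s2 : Fin 3} {v : ℕ × ℕ} {p : ℕ} (h : p ∈ dsup s1 s2 v) : p.Prime :=
  Nat.prime_of_mem_primeFactors h

lemma dsup_sub {s1 s2 : Fin 3} (hs : s1 ≠ s2) {v : ℕ × ℕ} (h : IsTri v) :
    dsup s1 s2 v ⊆ (nn v).primeFactors :=
  Nat.primeFactors_mono (dpr_dvd_nn v hs) (dpr_nn_ne h)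

lemma dsup_prod_le {s1 s2 : Fin 3} (hs : s1 ≠ s2) {v : ℕ × ℕ} (h : IsTri v) (Z : Finset ℕ)
    (hZ : Z ⊆ dsup s1 s2 v) : (∏ p ∈ Z, (p : ℝ)) ≤ RR v := by
  have h1 : ∏ p ∈ Z, p ∣ rad (nn v) :=
    Finset.prod_dvd_prod_of_subset _ _ _ (hZ.trans (dsup_sub hs h))
  have h2 := Nat.le_of_dvd (rad_pos _) h1
  have h3 : ((∏ p ∈ Z, p : ℕ) : ℝ) ≤ (rad (nn v) : ℝ) := by exact_mod_cast h2
  rw [Nat.cast_prod] at h3
  exact h3

/-- the weights -/
noncomputable def dwt (ε : ℝ) (p : ℕ) : ℝ := max 1 ((p : ℝ) ^ (ε / 2))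

lemma dwt_one (ε : ℝ) (p : ℕ) : 1 ≤ dwt ε p := le_max_left _ _

lemma dwt_prod {ε : ℝ} (hε : 0 < ε) (Z : Finset ℕ) (hZ : ∀ p ∈ Z, p.Prime) :
    ∏ p ∈ Z, dwt ε p = (∏ p ∈ Z, (p : ℝ)) ^ (ε / 2) := by
  rw [← Real.finsetProd_rpow _ _ (fun p _ => by positivity)]
  apply Finset.prod_congr rfl
  intro p hp
  apply max_eq_right
  apply Real.one_le_rpow _ (by positivity)
  exact_mod_cast (hZ p hp).one_lt.le

/-- few triples have a small free part of the support -/
lemma dpr_small {X ε : ℝ} (hX : 1 ≤ X) (s1 s2 : Fin 3) (V V1 : Finset (ℕ × ℕ))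
    (hV1 : V1 ⊆ V) (Z : Finset ℕ) (hZ : ∀ v ∈ V1, Z ⊆ dsup s1 s2 v)
    (hf : ∀ S : Finset ℕ, ((V.filter (fun v => dsup s1 s2 v = S)).card : ℝ) ≤ X ^ (ε / 8)) :
    ((V1.filter (fun v => (∏ p ∈ dsup s1 s2 v \ Z, (p : ℝ)) < X ^ (ε / 4))).card : ℝ) ≤
      X ^ (ε / 4) * X ^ (ε / 8) := by
  classical
  let m : ℕ × ℕ → ℕ := fun v => ∏ p ∈ dsup s1 s2 v \ Z, p
  let T := V1.filter (fun v => (∏ p ∈ dsup s1 s2 v \ Z, (p : ℝ)) < X ^ (ε / 4))
  have hpr : ∀ v, ∀ p ∈ dsup s1 s2 v \ Z, p.Prime := fun v p hp =>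
    dsup_prime (Finset.mem_sdiff.1 hp).1
  have hmT : ∀ v ∈ T, m v ∈ Finset.Icc 1 ⌊X ^ (ε / 4)⌋₊ := by
    intro v hv
    have h1 := (Finset.mem_filter.1 hv).2
    rw [Finset.mem_Icc]
    constructor
    · exact Nat.one_le_iff_ne_zero.2 (Finset.prod_ne_zero_iff.2 fun p hp => (hpr v p hp).ne_zero)
    · apply Nat.le_floor
      have : ((m v : ℕ) : ℝ) = ∏ p ∈ dsup s1 s2 v \ Z, (p : ℝ) := by
        show ((∏ p ∈ dsup s1 s2 v \ Z, p : ℕ) : ℝ) = _
        rw [Nat.cast_prod]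
      rw [this]
      exact h1.le
  have hfib : ∀ k ∈ Finset.Icc 1 ⌊X ^ (ε / 4)⌋₊, ((T.filter (fun v => m v = k)).card : ℝ) ≤
      X ^ (ε / 8) := by
    intro k _
    refine le_trans ?_ (hf (Z ∪ k.primeFactors))
    have : (T.filter (fun v => m v = k)).card ≤
        (V.filter (fun v => dsup s1 s2 v = Z ∪ k.primeFactors)).card := by
      apply Finset.card_le_card
      intro v hv
      rw [Finset.mem_filter] at hv
      have hvT := Finset.mem_filter.1 hv.1
      rw [Finset.mem_filter]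
      refine ⟨hV1 hvT.1, ?_⟩
      have h2 : k.primeFactors = dsup s1 s2 v \ Z := by
        rw [← hv.2]
        exact Nat.primeFactors_prod (hpr v)
      rw [h2, Finset.union_sdiff_of_subset (hZ v hvT.1)]
    exact_mod_cast this
  have hcard : T.card = ∑ k ∈ Finset.Icc 1 ⌊X ^ (ε / 4)⌋₊, (T.filter (fun v => m v = k)).card :=
    Finset.card_eq_sum_card_fiberwise (fun v hv => Finset.mem_coe.2 (hmT v (Finset.mem_coe.1 hv)))
  have hTr : (T.card : ℝ) ≤ X ^ (ε / 4) * X ^ (ε / 8) := by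
    rw [hcard]
    push_cast
    calc ∑ k ∈ Finset.Icc 1 ⌊X ^ (ε / 4)⌋₊, ((T.filter (fun v => m v = k)).card : ℝ)
        ≤ ∑ _k ∈ Finset.Icc 1 ⌊X ^ (ε / 4)⌋₊, X ^ (ε / 8) := Finset.sum_le_sum hfib
      _ = (⌊X ^ (ε / 4)⌋₊ : ℝ) * X ^ (ε / 8) := by
          rw [Finset.sum_const, Nat.card_Icc, Nat.add_sub_cancel, nsmul_eq_mul]
      _ ≤ X ^ (ε / 4) * X ^ (ε / 8) := by
          apply mul_le_mul_of_nonneg_right (Nat.floor_le (by positivity)) (by positivity)
  exact hTr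

/-- DPR -/
theorem dpr_thm (h1 : S_SUP) (h2 : S_ENR) (h3 : Pool.FEX.S_OMB) : S_DPR := by
  classical
  intro ε hε
  refine ⟨min (ε ^ 2 / 16) 1, lt_min (by positivity) one_pos, min_le_right _ _, ?_⟩
  intro t ht
  have ht0 : (0 : ℝ) < t := by exact_mod_cast ht
  obtain ⟨C', hC1, hC'⟩ := h3 (2 ^ (4 * t ^ 2 + 2 * t)) (t * ε ^ 2 / 32)
    (one_le_pow₀ (by norm_num)) (by positivity)
  have hC0 : 0 < C' := lt_of_lt_of_le one_pos hC1
  refine ⟨max 3 (max (2 ^ (8 / ε)) (C' ^ (32 / (t * ε ^ 2)))), le_max_left _ _, ?_⟩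
  intro X s1 s2 V hX hs hV hVc hfib
  have hX3 : (3 : ℝ) ≤ X := le_trans (le_max_left _ _) hX
  have hX1 : (1 : ℝ) ≤ X := by linarith
  have hX0 : (0 : ℝ) < X := by linarith
  have hXa : (2 : ℝ) ≤ X ^ (ε / 8) := by
    have h : (2 : ℝ) ^ (8 / ε) ≤ X := le_trans (le_trans (le_max_left _ _) (le_max_right _ _)) hX
    calc (2 : ℝ) = ((2 : ℝ) ^ (8 / ε)) ^ (ε / 8) := by
          rw [← Real.rpow_mul (by norm_num), show 8 / ε * (ε / 8) = 1 by field_simp, Real.rpow_one]
      _ ≤ X ^ (ε / 8) := Real.rpow_le_rpow (by positivity) h (by positivity)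
  have hXb : C' ≤ X ^ (t * ε ^ 2 / 32) := by
    have h : C' ^ (32 / (t * ε ^ 2)) ≤ X :=
      le_trans (le_trans (le_max_right _ _) (le_max_right _ _)) hX
    calc C' = (C' ^ (32 / (t * ε ^ 2))) ^ (t * ε ^ 2 / 32) := by
          rw [← Real.rpow_mul hC0.le, show 32 / (t * ε ^ 2) * (t * ε ^ 2 / 32) = 1 by field_simp,
            Real.rpow_one]
      _ ≤ X ^ (t * ε ^ 2 / 32) := Real.rpow_le_rpow (by positivity) h (by positivity)
  have hVne : V.Nonempty := by
    rw [← Finset.card_pos]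
    have h : (0 : ℝ) < V.card := lt_of_lt_of_le (Real.rpow_pos_of_pos hX0 _) hVc
    exact_mod_cast h
  obtain ⟨Z, V1, hV1, hV1ne, hZ, hcard, hW⟩ := h1 (ℕ × ℕ) V (dsup s1 s2) (dwt ε) hVne (dwt_one ε)
  -- the size of V1
  have hV1c : X ^ (ε / 2) ≤ (V1.card : ℝ) := by
    obtain ⟨v, hv⟩ := hV1ne
    have hZp : ∀ p ∈ Z, p.Prime := fun p hp => dsup_prime (hZ v hv hp)
    have h4 : ∏ p ∈ Z, dwt ε p ≤ X ^ (ε / 2) := by
      rw [dwt_prod hε Z hZp]
      apply Real.rpow_le_rpow (by positivity) _ (by positivity)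
      exact le_trans (dsup_prod_le hs (hV v (hV1 hv)).1 Z (hZ v hv)) (hV v (hV1 hv)).2
    have h5 : X ^ ε ≤ V1.card * X ^ (ε / 2) :=
      le_trans hVc (le_trans hcard (mul_le_mul_of_nonneg_left h4 (by positivity)))
    have h6 : X ^ ε = X ^ (ε / 2) * X ^ (ε / 2) := by
      rw [← Real.rpow_add hX0]
      congr 1
      ring
    rw [h6] at h5
    exact le_of_mul_le_mul_right h5 (Real.rpow_pos_of_pos hX0 _)
  set V2 := V1.filter (fun v => ¬ (∏ p ∈ dsup s1 s2 v \ Z, (p : ℝ)) < X ^ (ε / 4)) with hV2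
  have hV2c : (V1.card : ℝ) ≤ 2 * V2.card := by
    have h4 := dpr_small (ε := ε) hX1 s1 s2 V V1 hV1 Z hZ hfib
    have h5 := Finset.card_filter_add_card_filter_not (s := V1)
      (fun v => (∏ p ∈ dsup s1 s2 v \ Z, (p : ℝ)) < X ^ (ε / 4))
    have h6 : ((V1.filter (fun v => (∏ p ∈ dsup s1 s2 v \ Z, (p : ℝ)) < X ^ (ε / 4))).card : ℝ) +
        V2.card = V1.card := by exact_mod_cast h5
    have h7 : X ^ (ε / 2) = X ^ (ε / 4) * X ^ (ε / 8) * X ^ (ε / 8) := by
      rw [← Real.rpow_add hX0, ← Real.rpow_add hX0]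
      congr 1
      ring
    have h8 : 2 * (X ^ (ε / 4) * X ^ (ε / 8)) ≤ X ^ (ε / 2) := by
      rw [h7, mul_comm]
      exact mul_le_mul_of_nonneg_left hXa (by positivity)
    linarith
  have hV2pos : (0 : ℝ) < V2.card := by
    have := Real.rpow_pos_of_pos hX0 (ε / 2)
    linarith
  have hV2ne : V2.Nonempty := by
    rw [← Finset.card_pos]
    exact_mod_cast hV2pos
  have hV2V : ∀ v ∈ V2, v ∈ V := fun v hv => hV1 (Finset.mem_filter.1 hv).1
  have hV2t : ∀ v ∈ V2, IsTri v := fun v hv => (hV v (hV2V v hv)).1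
  -- the largest support
  obtain ⟨v0, hv0, hv0m⟩ := Finset.exists_max_image V2 (fun v => (dsup s1 s2 v \ Z).card) hV2ne
  set k := (dsup s1 s2 v0 \ Z).card with hk
  have hkom : k ≤ om (RR v0) := by
    rw [om, mn_primeFactors_RR]
    exact Finset.card_le_card (Finset.sdiff_subset.trans (dsup_sub hs (hV2t v0 hv0)))
  -- the energy
  have h4 := h2 (ℕ × ℕ) V2 (fun v => dsup s1 s2 v \ Z) (dwt ε) k t 2 (X ^ (ε ^ 2 / 8)) (dwt_one ε)
    (by norm_num) (Real.one_le_rpow hX1 (by positivity)) (fun v hv => hv0m v hv) (by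
      intro v hv
      rw [dwt_prod hε _ (fun p hp => dsup_prime (Finset.mem_sdiff.1 hp).1)]
      have h5 : X ^ (ε / 4) ≤ ∏ p ∈ dsup s1 s2 v \ Z, (p : ℝ) := not_lt.1 (Finset.mem_filter.1 hv).2
      calc X ^ (ε ^ 2 / 8) = (X ^ (ε / 4)) ^ (ε / 2) := by
            rw [← Real.rpow_mul hX0.le]
            congr 1
            ring
        _ ≤ _ := Real.rpow_le_rpow (by positivity) h5 (by positivity)) (by
      intro W
      by_cases hd : Disjoint W Z
      · have h5 := hW W hd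
        have h6 : ((V2.filter (fun v => W ⊆ dsup s1 s2 v \ Z)).card : ℝ) ≤
            ((V1.filter (fun v => W ⊆ dsup s1 s2 v)).card : ℝ) := by
          have : (V2.filter (fun v => W ⊆ dsup s1 s2 v \ Z)).card ≤
              (V1.filter (fun v => W ⊆ dsup s1 s2 v)).card := by
            apply Finset.card_le_card
            intro v hv
            rw [Finset.mem_filter] at hv ⊢
            exact ⟨(Finset.mem_filter.1 hv.1).1, hv.2.trans Finset.sdiff_subset⟩
          exact_mod_cast this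
        have h7 : 0 ≤ ∏ p ∈ W, dwt ε p :=
          Finset.prod_nonneg fun p _ => le_trans zero_le_one (dwt_one ε p)
        exact le_trans (mul_le_mul_of_nonneg_right h6 h7) (le_trans h5 hV2c)
      · have h6 : V2.filter (fun v => W ⊆ dsup s1 s2 v \ Z) = ∅ := by
          apply Finset.filter_eq_empty_iff.2
          intro v _ hsub
          apply hd
          rw [Finset.disjoint_left]
          intro p hp hpZ
          exact (Finset.mem_sdiff.1 (hsub hp)).2 hpZ
        rw [h6, Finset.card_empty, Nat.cast_zero, zero_mul]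
        positivity)
  have h5 := dpr_energy (t := t) hs Z V2 hV2t
  obtain ⟨W, hWP, hWinj, hWc⟩ := dpr_reps (Fintype.piFinset fun _ : Fin t => V2) (Th s1 s2)
  refine ⟨W, ?_, ?_, hWinj⟩
  · intro w hw r
    exact hV2V _ (Fintype.mem_piFinset.1 (hWP hw) r)
  · have hPc : ((Fintype.piFinset fun _ : Fin t => V2).card : ℝ) = (V2.card : ℝ) ^ t := by
      rw [Fintype.card_piFinset_const]
      push_cast
      rfl
    rw [hPc] at hWc
    set Y := X ^ (ε ^ 2 / 8) with hY
    have hY0 : 0 < Y := Real.rpow_pos_of_pos hX0 _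
    set E := (((((Fintype.piFinset fun _ : Fin t => V2) ×ˢ
      (Fintype.piFinset fun _ : Fin t => V2)).filter
      (fun x => Th s1 s2 x.1 = Th s1 s2 x.2)).card : ℕ) : ℝ) with hE
    have h6 : E * Y ^ t ≤ (2 * 2 ^ (2 * t * k) * (V2.card : ℝ)) ^ (2 * t) :=
      le_trans (mul_le_mul_of_nonneg_right h5 (by positivity)) h4
    have h7 : ((V2.card : ℝ) ^ t) ^ 2 * Y ^ t ≤
        W.card * (2 * 2 ^ (2 * t * k)) ^ (2 * t) * ((V2.card : ℝ) ^ t) ^ 2 := by
      calc ((V2.card : ℝ) ^ t) ^ 2 * Y ^ t ≤ W.card * E * Y ^ t :=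
            mul_le_mul_of_nonneg_right hWc (by positivity)
        _ = W.card * (E * Y ^ t) := by ring
        _ ≤ W.card * (2 * 2 ^ (2 * t * k) * (V2.card : ℝ)) ^ (2 * t) :=
            mul_le_mul_of_nonneg_left h6 (by positivity)
        _ = _ := by
            rw [mul_pow, ← pow_mul, mul_comm t 2]
            ring
    have h8 : Y ^ t ≤ W.card * (2 * 2 ^ (2 * t * k)) ^ (2 * t) := by
      have h9 : 0 < ((V2.card : ℝ) ^ t) ^ 2 := by positivity
      rw [mul_comm] at h7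
      exact le_of_mul_le_mul_right h7 h9
    have h9 : ((2 : ℝ) * 2 ^ (2 * t * k)) ^ (2 * t) ≤ X ^ (t * ε ^ 2 / 16) := by
      have ha : ((2 : ℝ) * 2 ^ (2 * t * k)) ^ (2 * t) ≤
          (2 ^ (4 * t ^ 2 + 2 * t)) ^ (om (RR v0) + 1) := by
        rw [mul_pow, ← pow_mul, ← pow_add, ← pow_mul]
        apply pow_le_pow_right₀ (by norm_num)
        nlinarith [Nat.zero_le (t * t), Nat.mul_le_mul_left (4 * t ^ 2) hkom,
          Nat.zero_le (t * om (RR v0))]
      have hb : ((RR v0 : ℕ) : ℝ) ^ (t * ε ^ 2 / 32) ≤ X ^ (t * ε ^ 2 / 32) :=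
        Real.rpow_le_rpow (by positivity) (hV v0 (hV2V v0 hv0)).2 (by positivity)
      have hc : X ^ (t * ε ^ 2 / 16) = X ^ (t * ε ^ 2 / 32) * X ^ (t * ε ^ 2 / 32) := by
        rw [← Real.rpow_add hX0]
        congr 1
        ring
      rw [hc]
      refine le_trans ha (le_trans (hC' (RR v0) (mn_RR_pos v0)) ?_)
      exact mul_le_mul hXb hb (by positivity) (by positivity)
    have h10 : Y ^ t = X ^ (t * ε ^ 2 / 16) * X ^ (t * ε ^ 2 / 16) := by
      rw [hY, ← Real.rpow_natCast, ← Real.rpow_mul hX0.le, ← Real.rpow_add hX0]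
      congr 1
      ring
    have h11 : X ^ (t * ε ^ 2 / 16) ≤ (W.card : ℝ) := by
      have hpos : 0 < X ^ (t * ε ^ 2 / 16) := Real.rpow_pos_of_pos hX0 _
      rw [h10] at h8
      exact le_of_mul_le_mul_right
        (le_trans h8 (mul_le_mul_of_nonneg_left h9 (by positivity))) hpos
    refine le_trans (Real.rpow_le_rpow_of_exponent_le hX1 ?_) h11
    calc min (ε ^ 2 / 16) 1 * t ≤ ε ^ 2 / 16 * t :=
          mul_le_mul_of_nonneg_right (min_le_left _ _) ht0.le
      _ = t * ε ^ 2 / 16 := by ring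

end Pool.LH
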