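import Pool.Agent.H94.LH.Stmts

/-! # LH, row ENR -/

set_option autoImplicit false

namespace Pool.LH

open Finset

section

variable {α : Type} [DecidableEq α]

/-- primes of the later supports -/
def later (U : α → Finset ℕ) {m : ℕ} (w : Fin m → α) (j : Fin m) : Finset ℕ :=
  (univ.filter (fun i => j < i)).biUnion (fun i => U (w i))

/-- the weight of the repeated primes -/
noncomputable def Phi (U : α → Finset ℕ) (a : ℕ → ℝ) {m : ℕ} (w : Fin m → α) : ℝ :=
  ∏ j, ∏ p ∈ U (w j) ∩ later U w j, a p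

lemma later_cons_zero (U : α → Finset ℕ) {m : ℕ} (v : α) (w : Fin m → α) :
    later U (Fin.cons v w : Fin (m + 1) → α) 0 = univ.biUnion (fun i => U (w i)) := by
  ext p
  simp only [later, mem_biUnion, mem_filter, mem_univ, true_and]
  constructor
  · rintro ⟨i, hi, hp⟩
    obtain ⟨i', rfl⟩ := Fin.exists_succ_eq.2 (ne_of_gt hi)
    rw [Fin.cons_succ] at hp
    exact ⟨i', hp⟩
  · rintro ⟨i, hp⟩
    exact ⟨i.succ, Fin.succ_pos i, by rw [Fin.cons_succ]; exact hp⟩

lemma later_cons_succ (U : α → Finset ℕ) {m : ℕ} (v : α) (w : Fin m → α) (j : Fin m) :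
    later U (Fin.cons v w : Fin (m + 1) → α) j.succ = later U w j := by
  ext p
  simp only [later, mem_biUnion, mem_filter, mem_univ, true_and]
  constructor
  · rintro ⟨i, hi, hp⟩
    obtain ⟨i', rfl⟩ := Fin.exists_succ_eq.2 (ne_of_gt (lt_trans (Fin.succ_pos j) hi))
    rw [Fin.cons_succ] at hp
    exact ⟨i', Fin.succ_lt_succ_iff.1 hi, hp⟩
  · rintro ⟨i, hi, hp⟩
    exact ⟨i.succ, Fin.succ_lt_succ_iff.2 hi, by rw [Fin.cons_succ]; exact hp⟩

lemma Phi_cons (U : α → Finset ℕ) (a : ℕ → ℝ) {m : ℕ} (v : α) (w : Fin m → α) :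
    Phi U a (Fin.cons v w : Fin (m + 1) → α) =
      (∏ p ∈ U v ∩ univ.biUnion (fun i => U (w i)), a p) * Phi U a w := by
  rw [Phi, Fin.prod_univ_succ, later_cons_zero, Fin.cons_zero, Phi]
  congr 1
  apply Finset.prod_congr rfl
  intro j _
  rw [later_cons_succ, Fin.cons_succ]

lemma Phi_nonneg (U : α → Finset ℕ) (a : ℕ → ℝ) (ha : ∀ p, 1 ≤ a p) {m : ℕ} (w : Fin m → α) :
    0 ≤ Phi U a w :=
  Finset.prod_nonneg fun _ _ => Finset.prod_nonneg fun p _ => le_trans zero_le_one (ha p)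

lemma inner (V : Finset α) (U : α → Finset ℕ) (a : ℕ → ℝ) (A : ℝ) (ha : ∀ p, 1 ≤ a p)
    (h : ∀ W : Finset ℕ, ((V.filter (fun v => W ⊆ U v)).card : ℝ) * ∏ p ∈ W, a p ≤ A * V.card)
    (P : Finset ℕ) : ∑ v ∈ V, ∏ p ∈ U v ∩ P, a p ≤ 2 ^ P.card * (A * V.card) := by
  have hpos : ∀ W : Finset ℕ, 0 ≤ ∏ p ∈ W, a p := fun W =>
    Finset.prod_nonneg fun p _ => le_trans zero_le_one (ha p)
  calc ∑ v ∈ V, ∏ p ∈ U v ∩ P, a p
      ≤ ∑ v ∈ V, ∑ W ∈ P.powerset, (if W ⊆ U v then ∏ p ∈ W, a p else 0) := by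
        apply Finset.sum_le_sum
        intro v _
        have hmem : U v ∩ P ∈ P.powerset := Finset.mem_powerset.2 Finset.inter_subset_right
        have := Finset.single_le_sum
          (f := fun W => if W ⊆ U v then ∏ p ∈ W, a p else 0)
          (fun W _ => by
            by_cases hW : W ⊆ U v
            · simp only [if_pos hW]; exact hpos W
            · simp only [if_neg hW]; exact le_refl _) hmem
        simpa only [if_pos (Finset.inter_subset_left : U v ∩ P ⊆ U v)] using this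
    _ = ∑ W ∈ P.powerset, ∑ v ∈ V, (if W ⊆ U v then ∏ p ∈ W, a p else 0) := Finset.sum_comm
    _ ≤ ∑ W ∈ P.powerset, A * V.card := by
        apply Finset.sum_le_sum
        intro W _
        rw [← Finset.sum_filter, Finset.sum_const, nsmul_eq_mul]
        exact h W
    _ = 2 ^ P.card * (A * V.card) := by
        rw [Finset.sum_const, Finset.card_powerset, nsmul_eq_mul]
        push_cast
        ring

lemma sumPhi (V : Finset α) (U : α → Finset ℕ) (a : ℕ → ℝ) (k c : ℕ) (A : ℝ) (hA : 0 ≤ A)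
    (ha : ∀ p, 1 ≤ a p) (hk : ∀ v ∈ V, (U v).card ≤ k)
    (h : ∀ W : Finset ℕ, ((V.filter (fun v => W ⊆ U v)).card : ℝ) * ∏ p ∈ W, a p ≤ A * V.card)
    (m : ℕ) (hm : m * k ≤ c) :
    ∑ w ∈ Fintype.piFinset (fun _ : Fin m => V), Phi U a w ≤ (A * 2 ^ c * V.card) ^ m := by
  induction m with
  | zero =>
    rw [pow_zero]
    have : ∀ w : Fin 0 → α, Phi U a w = 1 := by
      intro w
      rw [Phi, Finset.univ_eq_empty, Finset.prod_empty]
    rw [Finset.sum_congr rfl (fun w _ => this w), Finset.sum_const, nsmul_eq_mul, mul_one]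
    have hc : (Fintype.piFinset (fun _ : Fin 0 => V)).card = 1 := by
      rw [Fintype.card_piFinset]
      simp
    rw [hc]
    norm_num
  | succ m ih =>
    have hm' : m * k ≤ c := le_trans (Nat.mul_le_mul_right k (Nat.le_succ m)) hm
    have hsum : ∑ w ∈ Fintype.piFinset (fun _ : Fin (m + 1) => V), Phi U a w =
        ∑ x ∈ V ×ˢ Fintype.piFinset (fun _ : Fin m => V),
          Phi U a (Fin.cons x.1 x.2 : Fin (m + 1) → α) := by
      apply Finset.sum_nbij' (fun w => (w 0, Fin.tail w))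
        (fun x => (Fin.cons x.1 x.2 : Fin (m + 1) → α))
      · intro w hw
        rw [Fintype.mem_piFinset] at hw
        rw [Finset.mem_product, Fintype.mem_piFinset]
        exact ⟨hw 0, fun j => hw j.succ⟩
      · intro x hx
        rw [Finset.mem_product, Fintype.mem_piFinset] at hx
        rw [Fintype.mem_piFinset]
        intro j
        refine Fin.cases ?_ (fun j => ?_) j
        · rw [Fin.cons_zero]; exact hx.1
        · rw [Fin.cons_succ]; exact hx.2 j
      · intro w _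
        exact Fin.cons_self_tail w
      · intro x _
        rw [Fin.cons_zero, Fin.tail_cons]
      · intro w _
        rw [Fin.cons_self_tail]
    rw [hsum, Finset.sum_product_right]
    have hstep : ∀ w ∈ Fintype.piFinset (fun _ : Fin m => V),
        ∑ v ∈ V, Phi U a (Fin.cons v w : Fin (m + 1) → α) ≤
          (A * 2 ^ c * V.card) * Phi U a w := by
      intro w hw
      rw [Fintype.mem_piFinset] at hw
      have h1 : ∑ v ∈ V, Phi U a (Fin.cons v w : Fin (m + 1) → α) =
          (∑ v ∈ V, ∏ p ∈ U v ∩ univ.biUnion (fun i => U (w i)), a p) * Phi U a w := by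
        rw [Finset.sum_mul]
        exact Finset.sum_congr rfl fun v _ => Phi_cons U a v w
      rw [h1]
      apply mul_le_mul_of_nonneg_right _ (Phi_nonneg U a ha w)
      refine le_trans (inner V U a A ha h _) ?_
      have hcard : (univ.biUnion (fun i => U (w i))).card ≤ c := by
        refine le_trans (Finset.card_biUnion_le) ?_
        refine le_trans (Finset.sum_le_card_nsmul _ _ k (fun i _ => hk _ (hw i))) ?_
        rw [Finset.card_univ, Fintype.card_fin, smul_eq_mul]
        exact hm'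
      have h2 : (2 : ℝ) ^ (univ.biUnion (fun i => U (w i))).card ≤ 2 ^ c :=
        pow_le_pow_right₀ (by norm_num) hcard
      have h3 : 0 ≤ A * (V.card : ℝ) := mul_nonneg hA (Nat.cast_nonneg _)
      calc (2 : ℝ) ^ (univ.biUnion (fun i => U (w i))).card * (A * V.card)
          ≤ 2 ^ c * (A * V.card) := mul_le_mul_of_nonneg_right h2 h3
        _ = A * 2 ^ c * V.card := by ring
    calc ∑ w ∈ Fintype.piFinset (fun _ : Fin m => V),
          ∑ v ∈ V, Phi U a (Fin.cons v w : Fin (m + 1) → α)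
        ≤ ∑ w ∈ Fintype.piFinset (fun _ : Fin m => V), (A * 2 ^ c * V.card) * Phi U a w :=
          Finset.sum_le_sum hstep
      _ = (A * 2 ^ c * V.card) * ∑ w ∈ Fintype.piFinset (fun _ : Fin m => V), Phi U a w := by
          rw [Finset.mul_sum]
      _ ≤ (A * 2 ^ c * V.card) * (A * 2 ^ c * V.card) ^ m :=
          mul_le_mul_of_nonneg_left (ih hm') (by positivity)
      _ = (A * 2 ^ c * V.card) ^ (m + 1) := by rw [pow_succ]; ring

lemma Phi_eq (U : α → Finset ℕ) (a : ℕ → ℝ) {m : ℕ} (w : Fin m → α) :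
    Phi U a w = ∏ p ∈ univ.biUnion (fun i => U (w i)),
      a p ^ (univ.filter (fun j => p ∈ U (w j) ∩ later U w j)).card := by
  rw [Phi]
  have : ∀ p, a p ^ (univ.filter (fun j => p ∈ U (w j) ∩ later U w j)).card =
      ∏ _j ∈ univ.filter (fun j => p ∈ U (w j) ∩ later U w j), a p := by
    intro p
    rw [Finset.prod_const]
  rw [Finset.prod_congr rfl (fun p _ => this p)]
  apply Finset.prod_comm'
  intro j p
  constructor
  · rintro ⟨_, hp⟩
    refine ⟨Finset.mem_filter.2 ⟨Finset.mem_univ _, hp⟩, ?_⟩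
    exact Finset.mem_biUnion.2 ⟨j, Finset.mem_univ _, (Finset.mem_inter.1 hp).1⟩
  · rintro ⟨hj, _⟩
    exact ⟨Finset.mem_univ _, (Finset.mem_filter.1 hj).2⟩

lemma full_eq (U : α → Finset ℕ) (a : ℕ → ℝ) {m : ℕ} (w : Fin m → α) :
    ∏ j, ∏ p ∈ U (w j), a p = ∏ p ∈ univ.biUnion (fun i => U (w i)),
      a p ^ (univ.filter (fun j => p ∈ U (w j))).card := by
  have : ∀ p, a p ^ (univ.filter (fun j => p ∈ U (w j))).card =
      ∏ _j ∈ univ.filter (fun j => p ∈ U (w j)), a p := by
    intro p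
    rw [Finset.prod_const]
  rw [Finset.prod_congr rfl (fun p _ => this p)]
  apply Finset.prod_comm'
  intro j p
  constructor
  · rintro ⟨_, hp⟩
    exact ⟨Finset.mem_filter.2 ⟨Finset.mem_univ _, hp⟩,
      Finset.mem_biUnion.2 ⟨j, Finset.mem_univ _, hp⟩⟩
  · rintro ⟨hj, _⟩
    exact ⟨Finset.mem_univ _, (Finset.mem_filter.1 hj).2⟩

lemma cnt (U : α → Finset ℕ) {m : ℕ} (w : Fin m → α)
    (hw : ∀ j, ∀ p ∈ U (w j), ∃ j', j' ≠ j ∧ p ∈ U (w j')) (p : ℕ) :
    (univ.filter (fun j => p ∈ U (w j))).card ≤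
      2 * (univ.filter (fun j => p ∈ U (w j) ∩ later U w j)).card := by
  set J := univ.filter (fun j => p ∈ U (w j)) with hJ
  set J' := univ.filter (fun j => p ∈ U (w j) ∩ later U w j) with hJ'
  have hsub : J' ⊆ J := by
    intro j hj
    exact Finset.mem_filter.2 ⟨Finset.mem_univ _,
      (Finset.mem_inter.1 (Finset.mem_filter.1 hj).2).1⟩
  have hone : (J \ J').card ≤ 1 := by
    rw [Finset.card_le_one]
    intro x hx y hy
    rw [Finset.mem_sdiff] at hx hy
    have hxp := (Finset.mem_filter.1 hx.1).2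
    have hyp := (Finset.mem_filter.1 hy.1).2
    rcases lt_trichotomy x y with h | h | h
    · exfalso
      apply hx.2
      refine Finset.mem_filter.2 ⟨Finset.mem_univ _, Finset.mem_inter.2 ⟨hxp, ?_⟩⟩
      exact Finset.mem_biUnion.2 ⟨y, Finset.mem_filter.2 ⟨Finset.mem_univ _, h⟩, hyp⟩
    · exact h
    · exfalso
      apply hy.2
      refine Finset.mem_filter.2 ⟨Finset.mem_univ _, Finset.mem_inter.2 ⟨hyp, ?_⟩⟩
      exact Finset.mem_biUnion.2 ⟨x, Finset.mem_filter.2 ⟨Finset.mem_univ _, h⟩, hxp⟩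
  have hcard : (J \ J').card = J.card - J'.card := Finset.card_sdiff_of_subset hsub
  rcases Finset.eq_empty_or_nonempty J with h0 | ⟨j, hj⟩
  · rw [h0, Finset.card_empty]
    exact Nat.zero_le _
  · have hjp := (Finset.mem_filter.1 hj).2
    obtain ⟨j', hne, hj'⟩ := hw j p hjp
    have h2 : 2 ≤ J.card := by
      have : ({j, j'} : Finset (Fin m)) ⊆ J := by
        intro x hx
        rw [Finset.mem_insert, Finset.mem_singleton] at hx
        rcases hx with rfl | rfl
        · exact hj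
        · exact Finset.mem_filter.2 ⟨Finset.mem_univ _, hj'⟩
      calc 2 = ({j, j'} : Finset (Fin m)).card := (Finset.card_pair hne.symm).symm
        _ ≤ J.card := Finset.card_le_card this
    have h3 := Finset.card_le_card hsub
    omega

lemma Phi_ge (V : Finset α) (U : α → Finset ℕ) (a : ℕ → ℝ) (n : ℕ) (Y : ℝ) (hY : 1 ≤ Y)
    (ha : ∀ p, 1 ≤ a p) (hV : ∀ v ∈ V, Y ≤ ∏ p ∈ U v, a p) (w : Fin (2 * n) → α)
    (hwV : ∀ j, w j ∈ V)
    (hw : ∀ j, ∀ p ∈ U (w j), ∃ j', j' ≠ j ∧ p ∈ U (w j')) : Y ^ n ≤ Phi U a w := by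
  have h0 : 0 ≤ Phi U a w := Phi_nonneg U a ha w
  have h1 : ∏ j, ∏ p ∈ U (w j), a p ≤ Phi U a w ^ 2 := by
    rw [full_eq, Phi_eq, ← Finset.prod_pow]
    apply Finset.prod_le_prod
    · intro p _
      exact pow_nonneg (le_trans zero_le_one (ha p)) _
    · intro p _
      rw [← pow_mul]
      apply pow_le_pow_right₀ (ha p)
      have := cnt U w hw p
      omega
  have h2 : Y ^ (2 * n) ≤ ∏ j, ∏ p ∈ U (w j), a p := by
    calc Y ^ (2 * n) = ∏ _j : Fin (2 * n), Y := by
          rw [Finset.prod_const, Finset.card_univ, Fintype.card_fin]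
      _ ≤ ∏ j, ∏ p ∈ U (w j), a p := by
          apply Finset.prod_le_prod
          · intro j _
            linarith
          · intro j _
            exact hV _ (hwV j)
  have h3 : (Y ^ n) ^ 2 ≤ Phi U a w ^ 2 := by
    rw [← pow_mul, mul_comm n 2]
    exact le_trans h2 h1
  exact (abs_le_of_sq_le_sq' h3 h0).2

end

theorem enr_thm : S_ENR := by
  intro α _ V U a k n A Y ha hA hY hk hV h
  have hs := sumPhi V U a k (2 * n * k) A hA ha hk h (2 * n) (le_refl _)
  refine le_trans ?_ hs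
  rw [mul_comm, ← nsmul_eq_mul', ← Finset.sum_const]
  calc ∑ _w ∈ (Fintype.piFinset fun _ : Fin (2 * n) => V).filter
        (fun w => ∀ j, ∀ p ∈ U (w j), ∃ j', j' ≠ j ∧ p ∈ U (w j')), Y ^ n
      ≤ ∑ w ∈ (Fintype.piFinset fun _ : Fin (2 * n) => V).filter
        (fun w => ∀ j, ∀ p ∈ U (w j), ∃ j', j' ≠ j ∧ p ∈ U (w j')), Phi U a w := by
        apply Finset.sum_le_sum
        intro w hw
        rw [Finset.mem_filter, Fintype.mem_piFinset] at hw
        exact Phi_ge V U a n Y hY ha hV w hw.1 hw.2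
    _ ≤ ∑ w ∈ Fintype.piFinset (fun _ : Fin (2 * n) => V), Phi U a w := by
        apply Finset.sum_le_sum_of_subset_of_nonneg (Finset.filter_subset _ _)
        intro w _ _
        exact Phi_nonneg U a ha w

end Pool.LH
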