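import Pool.Agent.H94.LH.Stmts2
import Pool.Agent.H98.ABCR.MainB

/-! # LH: the final statement -/

set_option autoImplicit false

namespace Pool.LH

open Finset Pool.Agent.H98.ABCR Pool.SHA

/-- the product of the primes dividing `a b (a + b)` -/
def rdF (t : ℕ × ℕ) : ℕ := ∏ p ∈ (t.1 * t.2 * (t.1 + t.2)).primeFactors, p

/-- the number of primes dividing `a b (a + b)` -/
def omF (t : ℕ × ℕ) : ℕ := (t.1 * t.2 * (t.1 + t.2)).primeFactors.card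

/-- the part of `a b (a + b)` made of the primes at most `Y` -/
noncomputable def smF (Y : ℝ) (t : ℕ × ℕ) : ℕ :=
  ∏ p ∈ (t.1 * t.2 * (t.1 + t.2)).primeFactors.filter (fun p : ℕ => (p : ℝ) ≤ Y),
    p ^ (t.1 * t.2 * (t.1 + t.2)).factorization p

/-- the triples of radical at most `X` -/
def TriF (X : ℝ) : Set (ℕ × ℕ) :=
  {t | 0 < t.1 ∧ 0 < t.2 ∧ Nat.Coprime t.1 t.2 ∧ (rdF t : ℝ) ≤ X}

/-- the triples of radical at most `X` and of large height -/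
def LargeF (C X : ℝ) : Set (ℕ × ℕ) :=
  {t | t ∈ TriF X ∧
    C ^ (omF t + 1) * Real.log (2 * (rdF t : ℝ)) ≤ Real.log ((t.1 + t.2 : ℕ) : ℝ)}

/-- a set all of whose finite subsets have at most `B` elements -/
theorem fin_bound (S : Set (ℕ × ℕ)) (B : ℝ)
    (h : ∀ F : Finset (ℕ × ℕ), (F : Set (ℕ × ℕ)) ⊆ S → (F.card : ℝ) ≤ B) :
    S.Finite ∧ (S.ncard : ℝ) ≤ B := by
  have hfin : S.Finite := by
    by_contra hinf
    obtain ⟨F, hF, hc⟩ := Set.Infinite.exists_subset_card_eq (Set.not_finite.mp hinf : S.Infinite)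
      (⌊B⌋₊ + 1)
    have h1 := h F hF
    rw [hc] at h1
    have h2 := Nat.lt_floor_add_one B
    push_cast at h1
    linarith
  refine ⟨hfin, ?_⟩
  have h1 := h hfin.toFinset (by rw [Set.Finite.coe_toFinset])
  rwa [← Set.ncard_eq_toFinset_card _ hfin] at h1

lemma fin_rd_one (t : ℕ × ℕ) : (1 : ℝ) ≤ rdF t := by
  have : 0 < rdF t := Finset.prod_pos fun p hp => (Nat.prime_of_mem_primeFactors hp).pos
  exact_mod_cast this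

lemma fin_anti {C C' X : ℝ} (h1 : 1 ≤ C) (h : C ≤ C') : LargeF C' X ⊆ LargeF C X := by
  intro t ht
  refine ⟨ht.1, le_trans ?_ ht.2⟩
  apply mul_le_mul_of_nonneg_right (pow_le_pow_left₀ (by linarith) h _)
  apply Real.log_nonneg
  have := fin_rd_one t
  linarith

/-- the logarithm of the smooth part -/
lemma fin_sm (Y : ℝ) (t : ℕ × ℕ) : Real.log (smF Y t) =
    kl ((nn t).primeFactors.filter (fun q => (q : ℝ) ≤ Y)) (nn t) := by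
  unfold smF kl nn
  rw [Nat.cast_prod, Real.log_prod]
  · apply Finset.sum_congr rfl
    intro p _
    rw [Nat.cast_pow, Real.log_pow]
  · intro p hp
    have := (Nat.prime_of_mem_primeFactors (Finset.mem_filter.1 hp).1).ne_zero
    exact_mod_cast pow_ne_zero _ this

lemma fin_unb {ε Y : ℝ} {t : ℕ × ℕ} (h1 : 0 < t.1) (h2 : 0 < t.2)
    (h : ((min t.1 t.2 : ℕ) : ℝ) ≤ ((t.1 + t.2 : ℕ) : ℝ) ^ (1 - ε) ∨
      ((t.1 + t.2 : ℕ) : ℝ) ^ ε ≤ (smF Y t : ℝ)) : Unb ε Y t := by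
  have hc : (0 : ℝ) < ((t.1 + t.2 : ℕ) : ℝ) := by
    exact_mod_cast Nat.add_pos_left h1 _
  rcases h with h | h
  · left
    have hm : (0 : ℝ) < ((min t.1 t.2 : ℕ) : ℝ) := by
      exact_mod_cast lt_min h1 h2
    have h3 := Real.log_le_log hm h
    rwa [Real.log_rpow hc] at h3
  · right
    have h3 := Real.log_le_log (Real.rpow_pos_of_pos hc _) h
    rw [Real.log_rpow hc, fin_sm] at h3
    exact h3

/-- THE FINAL STATEMENT -/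
theorem fin (hA : S_LAR2) (hB : S_LC2) (hC : S_LCO2) :
    ∀ ε : ℝ, 0 < ε → ε ≤ 1 → ∃ C : ℝ, 1 ≤ C ∧ ∀ X : ℝ, 1 ≤ X →
      (∀ Y : ℝ, 1 ≤ Y → {t : ℕ × ℕ | t ∈ LargeF C X ∧
        (((min t.1 t.2 : ℕ) : ℝ) ≤ ((t.1 + t.2 : ℕ) : ℝ) ^ (1 - ε) ∨
          ((t.1 + t.2 : ℕ) : ℝ) ^ ε ≤ (smF Y t : ℝ))}.Finite ∧
        ({t : ℕ × ℕ | t ∈ LargeF C X ∧
          (((min t.1 t.2 : ℕ) : ℝ) ≤ ((t.1 + t.2 : ℕ) : ℝ) ^ (1 - ε) ∨
            ((t.1 + t.2 : ℕ) : ℝ) ^ ε ≤ (smF Y t : ℝ))}.ncard : ℝ) ≤ C * Y * X ^ ε) ∧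
      (LargeF C X).Finite ∧ ((LargeF C X).ncard : ℝ) ≤ C * X ^ (1 / 3 + ε) ∧
      {t : ℕ × ℕ | t ∈ TriF X ∧
        (rdF t : ℝ) ^ ε ≤ Real.log ((t.1 + t.2 : ℕ) : ℝ)}.Finite ∧
      ({t : ℕ × ℕ | t ∈ TriF X ∧
        (rdF t : ℝ) ^ ε ≤ Real.log ((t.1 + t.2 : ℕ) : ℝ)}.ncard : ℝ) ≤ C * X ^ (1 / 3 + ε) := by
  intro ε hε hε1
  obtain ⟨C1, hC1, h1⟩ := hA ε hε hε1
  obtain ⟨C2, hC2, h2⟩ := hB ε hε
  obtain ⟨C3, hC3, h3⟩ := hC ε hε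
  refine ⟨max C1 (max C2 C3), le_trans hC1 (le_max_left _ _), ?_⟩
  intro X hX
  have hX0 : 0 < X := by linarith
  have m1 : C1 ≤ max C1 (max C2 C3) := le_max_left _ _
  have m2 : C2 ≤ max C1 (max C2 C3) := le_trans (le_max_left _ _) (le_max_right _ _)
  have m3 : C3 ≤ max C1 (max C2 C3) := le_trans (le_max_right _ _) (le_max_right _ _)
  have e2 := fin_bound (LargeF (max C1 (max C2 C3)) X) (C2 * X ^ (1 / 3 + ε)) (fun F hF =>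
    h2 X F hX (fun v hv => by
      obtain ⟨⟨a1, a2, a3, a4⟩, a5⟩ := fin_anti hC2 m2 (hF hv)
      exact ⟨⟨a1, a2, a3⟩, a4, a5⟩))
  have e3 := fin_bound {t : ℕ × ℕ | t ∈ TriF X ∧
      (rdF t : ℝ) ^ ε ≤ Real.log ((t.1 + t.2 : ℕ) : ℝ)} (C3 * X ^ (1 / 3 + ε)) (fun F hF =>
    h3 X F hX (fun v hv => by
      obtain ⟨⟨a1, a2, a3, a4⟩, a5⟩ := hF hv
      exact ⟨⟨a1, a2, a3⟩, a4, a5⟩))
  have hp : 0 ≤ X ^ (1 / 3 + ε) := by positivity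
  refine ⟨?_, e2.1, e2.2.trans (mul_le_mul_of_nonneg_right m2 hp), e3.1,
    e3.2.trans (mul_le_mul_of_nonneg_right m3 hp)⟩
  intro Y hY
  have e1 := fin_bound {t : ℕ × ℕ | t ∈ LargeF (max C1 (max C2 C3)) X ∧
      (((min t.1 t.2 : ℕ) : ℝ) ≤ ((t.1 + t.2 : ℕ) : ℝ) ^ (1 - ε) ∨
        ((t.1 + t.2 : ℕ) : ℝ) ^ ε ≤ (smF Y t : ℝ))} (C1 * Y * X ^ ε) (fun F hF =>
    h1 X Y F hX hY (fun v hv => by
      obtain ⟨b1, b2⟩ := hF hv
      obtain ⟨⟨a1, a2, a3, a4⟩, a5⟩ := fin_anti hC1 m1 b1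
      exact ⟨⟨a1, a2, a3⟩, a4, fin_unb a1 a2 b2, a5⟩))
  refine ⟨e1.1, e1.2.trans ?_⟩
  have : 0 ≤ Y * X ^ ε := by positivity
  calc C1 * Y * X ^ ε = C1 * (Y * X ^ ε) := by ring
    _ ≤ max C1 (max C2 C3) * (Y * X ^ ε) := mul_le_mul_of_nonneg_right m1 this
    _ = _ := by ring

end Pool.LH
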