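import Pool.Agent.H94.LH.Stmts2

/-! LH, row GRY: greedy choice among the primes at most `Y` (as helper76's `GRE`) -/

set_option autoImplicit false

namespace Pool.LH

open Finset Pool.Agent.H98.ABCR Pool.SHA

theorem gry_thm94 (hK : S_KNA) : S_GRY := by
  intro n θ Y hn h0 h1 hY
  have hpr : ∀ q ∈ n.primeFactors, q.Prime := fun q hq => Nat.prime_of_mem_primeFactors hq
  obtain ⟨T, hT, hμ, hg⟩ := hK (n.primeFactors.filter (fun q : ℕ => (q : ℝ) ≤ Y))
    (fun q => (n.factorization q : ℝ) * Real.log q) (fun q => Real.log q) θ (Real.log Y)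
    (fun q hq => mul_nonneg (Nat.cast_nonneg _)
      (Real.log_nonneg (by exact_mod_cast (hpr q (Finset.mem_filter.1 hq).1).one_lt.le)))
    (fun q hq => Real.log_pos (by exact_mod_cast (hpr q (Finset.mem_filter.1 hq).1).one_lt)) h0 h1
    (Real.log_nonneg hY)
    (fun q hq => Real.log_le_log (by exact_mod_cast (hpr q (Finset.mem_filter.1 hq).1).pos)
      (Finset.mem_filter.1 hq).2)
  have hT' : T ⊆ n.primeFactors := hT.trans (Finset.filter_subset _ _)
  refine ⟨T, hT', fun q hq => (Finset.mem_filter.1 (hT hq)).2, hμ, ?_⟩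
  have hT0 : (0 : ℝ) < ((∏ q ∈ T, q : ℕ) : ℝ) := by
    have : 0 < ∏ q ∈ T, q := Finset.prod_pos (fun q hq => (hpr q (hT' hq)).pos)
    exact_mod_cast this
  have hr0 : (0 : ℝ) < (rad n : ℝ) := by
    have : 0 < rad n := Finset.prod_pos (fun q hq => (hpr q hq).pos)
    exact_mod_cast this
  have hg0 : (0 : ℝ) < Y := by linarith
  have hlT : Real.log ((∏ q ∈ T, q : ℕ) : ℝ) = ∑ q ∈ T, Real.log q := by
    push_cast
    exact Real.log_prod (fun q hq => by
      have := (hpr q (hT' hq)).pos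
      positivity)
  have hlr : Real.log (rad n : ℝ) = ∑ q ∈ n.primeFactors, Real.log q := by
    unfold rad
    push_cast
    exact Real.log_prod (fun q hq => by
      have := (hpr q hq).pos
      positivity)
  rw [← Real.log_le_log_iff hT0 (mul_pos (Real.rpow_pos_of_pos hr0 _) hg0), hlT,
    Real.log_mul (Real.rpow_pos_of_pos hr0 _).ne' hg0.ne', Real.log_rpow hr0, hlr]
  refine le_trans hg ?_
  have h2 : ∑ q ∈ n.primeFactors.filter (fun q : ℕ => (q : ℝ) ≤ Y), Real.log (q : ℝ) ≤
      ∑ q ∈ n.primeFactors, Real.log (q : ℝ) :=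
    Finset.sum_le_sum_of_subset_of_nonneg (Finset.filter_subset _ _) (fun q hq _ =>
      Real.log_nonneg (by exact_mod_cast (hpr q hq).one_lt.le))
  have := mul_le_mul_of_nonneg_left h2 h0
  linarith

end Pool.LH
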