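import Pool.Agent.H10.ABY.All
import Pool.Agent.H2.FEX.OMB
import Pool.Agent.H2.LH.PZ
import Pool.Agent.H2.LH.PZR
import Pool.Agent.H2.LH.TUR2
import Pool.Agent.H22.LH.DEC
import Pool.Agent.H22.LH.TUP
import Pool.Agent.H23.LH.MULT
import Pool.Agent.H40.LH.CLP
import Pool.Agent.H42.LH.LC2
import Pool.Agent.H42.LH.MIN
import Pool.Agent.H49.LH.LDY2
import Pool.Agent.H50.LH.CLR2
import Pool.Agent.H50.LH.LAX2
import Pool.Agent.H50.LH.LAR2
import Pool.Agent.H50.LH.LCO2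
import Pool.Agent.H94.LH.GRY
import Pool.Agent.H78.LH.FSP
import Pool.Agent.H91.LH.SUP
import Pool.Agent.H94.LH.DPR
import Pool.Agent.H94.LH.ENR
import Pool.Agent.H94.LH.Fin
import Pool.Agent.H98.ABCR.All
import Pool.Agent.H98.LH.NULX

/-! # LH: assembly -/

set_option autoImplicit false

namespace Pool.LH

open Finset Pool.Agent.H98.ABCR Pool.SHA

theorem all_DEC : S_DEC := dec_thm mult_thm

theorem all_DPR : S_DPR := dpr_thm sup_thm enr_thm Pool.FEX.omb_thm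

theorem all_FSP : S_FSP := fsp_thm Pool.ABY.gpd_thm

theorem all_CLP : S_CLP := clp_thm all_DEC all_DPR all_FSP tup_thm
  (pz_thm Pool.ALLH.pade_thm10 Pool.ALLH.zer_thm10) nul_thm Pool.ALLH.gpr_thm Pool.FEX.omb_thm

theorem all_CLR2 : S_CLR2 :=
  clr2_thm all_DEC all_DPR all_FSP tur2_thm pzr_thm nul_thm Pool.FEX.omb_thm

theorem all_LDY2 : S_LDY2 := ldy2_thm all_CLP all_CLR2 (gry_thm94 kna_thm)
  (Pool.ALLH.cel_thm gco_thm) Pool.FEX.omb_thm all_TOT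

theorem all_LAX2 : S_LAX2 := lax2_thm all_LDY2 Pool.ABY.ehb_thm

theorem all_LAR2 : S_LAR2 := lar2_thm all_LAX2

theorem all_LC2 : S_LC2 := lc2_thm all_LAR2

theorem all_LCO2 : S_LCO2 := lco2_thm all_LC2 Pool.FEX.omb_thm all_TOT

end Pool.LH
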